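import Pool.Agent.R115.Mm.Rig

/-!
# Stresses of bipartite graphs
-/

set_option autoImplicit false

namespace Pool.Agent.R115.Mm

open Finset

variable {V : Type} [Fintype V] [DecidableEq V] {d : ℕ}

omit [DecidableEq V] in
theorem stress_hat {p : V → Fin d → ℝ} {c : Sym2 V → ℝ} (hc : Stress p c) (v : V)
    (k : Option (Fin d)) : ∑ u, c s(v, u) * hat p u k = (∑ u, c s(v, u)) * hat p v k := by
  rcases k with _ | i
  · simp [hat]
  · have h1 := hc v i
    simp only [mul_sub, Finset.sum_sub_distrib] at h1
    simp only [hat, Finset.sum_mul]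
    linarith

/-- at a vertex of small degree a generic stress vanishes -/
theorem stress_local {p : V → Fin d → ℝ} (hp : Generic p) {c : Sym2 V → ℝ} (hc : Stress p c)
    (hdiag : ∀ v, c s(v, v) = 0) (z : V) (N : Finset V) (hN : N.card ≤ d)
    (hz : ∀ u, c s(z, u) ≠ 0 → u ∈ N) (u : V) : c s(z, u) = 0 := by
  obtain ⟨τ, hτ⟩ : ∃ τ, τ = ∑ u, c s(z, u) := ⟨_, rfl⟩
  have h1 := aff hp (fun u => c s(z, u) - if u = z then τ else 0) (insert z N)
    ((card_insert_le _ _).trans (by omega)) ?_ ?_
  · by_cases huz : u = z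
    · rw [huz]
      exact hdiag z
    · have h2 := congrFun h1 u
      simp only [if_neg huz, sub_zero] at h2
      exact h2
  · intro v hv
    rw [mem_insert, not_or] at hv
    show c s(z, v) - (if v = z then τ else 0) = 0
    rw [if_neg hv.1, sub_zero]
    by_contra h
    exact hv.2 (hz v h)
  · intro k
    simp only [sub_mul, Finset.sum_sub_distrib]
    rw [stress_hat hc z k, ← hτ, Finset.sum_eq_single z (fun v _ hv => by rw [if_neg hv, zero_mul])
      (fun h => absurd (mem_univ z) h), if_pos rfl, sub_self]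

theorem sum_two {s t : V} (hst : s ≠ t) (F : V → V → ℝ)
    (hF : ∀ v u, F v u ≠ 0 → (v = s ∧ u = t) ∨ (v = t ∧ u = s)) :
    ∑ v, ∑ u, F v u = F s t + F t s := by
  have h1 : ∀ v, v ≠ s → v ≠ t → ∑ u, F v u = 0 := by
    intro v h1 h2
    apply Finset.sum_eq_zero
    intro u _
    by_contra h
    rcases hF v u h with h | h
    · exact h1 h.1
    · exact h2 h.1
  rw [← Finset.sum_subset (Finset.subset_univ {s, t}) (fun v _ hv => by
    rw [mem_insert, mem_singleton, not_or] at hv
    exact h1 v hv.1 hv.2), Finset.sum_pair hst]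
  congr 1
  · apply Finset.sum_eq_single t
    · intro u _ hu
      by_contra h
      rcases hF s u h with h | h
      · exact hu h.2
      · exact hst h.1
    · intro h
      exact absurd (mem_univ t) h
  · apply Finset.sum_eq_single s
    · intro u _ hu
      by_contra h
      rcases hF t u h with h | h
      · exact hst h.1.symm
      · exact hu h.2
    · intro h
      exact absurd (mem_univ s) h

/-- the equilibrium of the squares (Bolker and Roth) -/
theorem balance {p : V → Fin d → ℝ} (hp : Generic p) {c : Sym2 V → ℝ} (hc : Stress p c)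
    (S : Finset V) (hS : 2 * S.card + 2 ≤ (d + 2) * (d + 1))
    (hd : 0 < d) (s t : V) (hs : s ∈ S) (ht : t ∈ S) (hst : s ≠ t) (ε : V → ℝ)
    (hε : ∀ v, v ∉ S → ε v = 0)
    (h : ∀ u v, c s(u, v) ≠ 0 → ε u + ε v = 0 ∨ s(u, v) = s(s, t)) :
    (∀ v, ε v * ∑ u, c s(v, u) = 0) ∧ (ε s + ε t) * c s(s, t) = 0 := by
  have key := quad hp (fun v => 2 * (ε v * ∑ u, c s(v, u))) S hS
    (fun v hv => by rw [hε v hv, zero_mul, mul_zero]) s t hs ht hst hd (-((ε s + ε t) * c s(s, t)))
    ?_
  · refine ⟨fun v => ?_, neg_eq_zero.1 key.2⟩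
    have := congrFun key.1 v
    simpa using this
  · intro k l
    have h1 : ∀ k l, ∑ v, ∑ u, ε v * c s(v, u) * (hat p v k * hat p u l) =
        ∑ v, (ε v * ∑ u, c s(v, u)) * (hat p v k * hat p v l) := by
      intro k l
      apply Finset.sum_congr rfl
      intro v _
      have h2 := stress_hat hc v l
      calc ∑ u, ε v * c s(v, u) * (hat p v k * hat p u l) =
          ε v * hat p v k * ∑ u, c s(v, u) * hat p u l := by
            rw [Finset.mul_sum]
            apply Finset.sum_congr rfl
            intro u _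
            ring
        _ = _ := by
            rw [h2]
            ring
    have h2 : ∑ v, ∑ u, ε v * c s(v, u) * (hat p v l * hat p u k) =
        ∑ v, ∑ u, ε u * c s(v, u) * (hat p v k * hat p u l) := by
      rw [Finset.sum_comm]
      apply Finset.sum_congr rfl
      intro v _
      apply Finset.sum_congr rfl
      intro u _
      rw [Sym2.eq_swap]
      ring
    have h3 : ∑ v, ∑ u, (ε v + ε u) * c s(v, u) * (hat p v k * hat p u l) =
        (ε s + ε t) * c s(s, t) * (hat p s k * hat p t l) +
        (ε t + ε s) * c s(t, s) * (hat p t k * hat p s l) := by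
      apply sum_two hst
      intro v u hne
      have h4 : (ε v + ε u) ≠ 0 := fun h => hne (by rw [h, zero_mul, zero_mul])
      have h5 : c s(v, u) ≠ 0 := fun h => hne (by rw [h, mul_zero, zero_mul])
      rcases h v u h5 with h6 | h6
      · exact absurd h6 h4
      · exact Sym2.eq_iff.1 h6
    have h4 : ∑ v, ∑ u, (ε v + ε u) * c s(v, u) * (hat p v k * hat p u l) =
        2 * ∑ v, (ε v * ∑ u, c s(v, u)) * (hat p v k * hat p v l) := by
      have h5 : ∑ v, ∑ u, (ε v + ε u) * c s(v, u) * (hat p v k * hat p u l) =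
          ∑ v, ∑ u, ε v * c s(v, u) * (hat p v k * hat p u l) +
          ∑ v, ∑ u, ε u * c s(v, u) * (hat p v k * hat p u l) := by
        rw [← Finset.sum_add_distrib]
        apply Finset.sum_congr rfl
        intro v _
        rw [← Finset.sum_add_distrib]
        apply Finset.sum_congr rfl
        intro u _
        ring
      rw [h5, ← h2, h1, h1, two_mul]
      congr 1
      apply Finset.sum_congr rfl
      intro v _
      ring
    rw [h4, show c s(t, s) = c s(s, t) by rw [Sym2.eq_swap]] at h3
    have h6 : ∑ v, 2 * (ε v * ∑ u, c s(v, u)) * (hat p v k * hat p v l) =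
        2 * ∑ v, (ε v * ∑ u, c s(v, u)) * (hat p v k * hat p v l) := by
      rw [Finset.mul_sum]
      apply Finset.sum_congr rfl
      intro v _
      ring
    rw [h6, h3]
    ring

/-- more than `d + 1` points are affinely dependent -/
theorem exists_dep (p : V → Fin d → ℝ) (S : Finset V) (hS : d + 1 < S.card) :
    ∃ l : V → ℝ, l ≠ 0 ∧ (∀ v, l v ≠ 0 → v ∈ S) ∧ ∀ k, ∑ v, l v * hat p v k = 0 := by
  let L : (S → ℝ) →ₗ[ℝ] (Option (Fin d) → ℝ) :=
    { toFun := fun x k => ∑ v : S, x v * hat p v k
      map_add' := fun x y => by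
        funext k
        simp [add_mul, Finset.sum_add_distrib]
      map_smul' := fun a x => by
        funext k
        simp [mul_assoc, Finset.mul_sum] }
  have h1 : LinearMap.ker L ≠ ⊥ := by
    apply LinearMap.ker_ne_bot_of_finrank_lt
    rw [Module.finrank_fintype_fun_eq_card, Module.finrank_fintype_fun_eq_card,
      Fintype.card_option, Fintype.card_fin, Fintype.card_coe]
    exact hS
  obtain ⟨x, hx, hx0⟩ := Submodule.exists_mem_ne_zero_of_ne_bot h1
  refine ⟨fun v => if h : v ∈ S then x ⟨v, h⟩ else 0, ?_, ?_, ?_⟩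
  · intro h
    apply hx0
    funext v
    have := congrFun h v
    simpa using this
  · intro v hv
    by_contra h
    exact hv (dif_neg h)
  · intro k
    have h2 : ∑ v : S, x v * hat p v k = 0 := congrFun hx k
    refine Eq.trans ?_ h2
    have h3 := sum_sub S (fun v => (if h : v ∈ S then x ⟨v, h⟩ else 0) * hat p v k)
      (fun v hv => by rw [dif_neg hv, zero_mul])
    rw [← h3]
    apply Finset.sum_congr rfl
    intro v _
    rw [dif_pos v.2]

/-- the product of two affine dependencies is a stress -/
theorem stress_prod (p : V → Fin d → ℝ) (l m : V → ℝ) (hl : ∀ k, ∑ v, l v * hat p v k = 0)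
    (hm : ∀ k, ∑ v, m v * hat p v k = 0) :
    Stress p (Sym2.lift ⟨fun u v => l u * m v + l v * m u, fun u v => by ring⟩) := by
  intro v i
  simp only [Sym2.lift_mk]
  have e1 : ∑ u, l u = 0 := by
    rw [← hl none]
    simp [hat]
  have e2 : ∑ u, m u = 0 := by
    rw [← hm none]
    simp [hat]
  have e3 : ∑ u, l u * p u i = 0 := hl (some i)
  have e4 : ∑ u, m u * p u i = 0 := hm (some i)
  have e5 : ∑ u, (l v * m u + l u * m v) * (p v i - p u i) =
      l v * p v i * ∑ u, m u - l v * ∑ u, m u * p u i + (m v * p v i * ∑ u, l u -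
        m v * ∑ u, l u * p u i) := by
    rw [Finset.mul_sum, Finset.mul_sum, Finset.mul_sum, Finset.mul_sum, ← Finset.sum_sub_distrib,
      ← Finset.sum_sub_distrib, ← Finset.sum_add_distrib]
    apply Finset.sum_congr rfl
    intro u _
    ring
  rw [e5, e1, e2, e3, e4]
  ring

end Pool.Agent.R115.Mm
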