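import Pool.Agent.R115.Mm.Defs

/-!
# The combinatorial part
-/

set_option autoImplicit false

namespace Pool.Agent.R115.Mm

open Finset

variable {α : Type} [DecidableEq α]

theorem comb [Fintype α] (r : Finset α → ℕ) (hcard : ∀ X, r X ≤ X.card)
    (hmono : ∀ X Y, X ⊆ Y → r X ≤ r Y)
    (hsub : ∀ X Y, r (X ∪ Y) + r (X ∩ Y) ≤ r X + r Y)
    (H : Finset (Finset α)) (hH : ∀ P ∈ H, P.card = 2)
    (hdisj : ∀ P ∈ H, ∀ Q ∈ H, P ≠ Q → Disjoint P Q)
    (hr : 2 * H.card ≤ r (H.biUnion id) + 2) (hflat : IsFlat r (H.biUnion id))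
    {β : Type} [Nonempty β] (D : β → Finset α) (hDX : ∀ b, D b ⊆ H.biUnion id)
    (hD : ∀ b, r (D b) < (D b).card)
    (hdep : ∀ Y ⊆ H.biUnion id, r Y < Y.card → ∃ b, D b ⊆ Y)
    (hDD : ∀ b c, ∃ P ∈ H, P ⊆ D b ∩ D c) (hPD : ∀ P ∈ H, ∃ b, Disjoint P (D b)) :
    ¬ MatchingProperty r := by
  intro hmp
  have hmp' := hmp H hH
  set X := H.biUnion id with hX
  have hbi : ∀ K ⊆ H, (K.biUnion id).card = 2 * K.card := by
    intro K hK
    have h1 := card_biUnion (s := K) (t := id) (fun P hP Q hQ h => hdisj P (hK hP) Q (hK hQ) h)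
    rw [h1, sum_congr rfl (fun P hP => show (id P).card = 2 from hH P (hK hP)), sum_const,
      smul_eq_mul, mul_comm]
  -- dependent sets
  have hind : ∀ Y b, D b ⊆ Y → r Y < Y.card := by
    intro Y b hb
    have h1 := hD b
    have h2 : r Y ≤ r (D b) + (Y \ D b).card := by
      have h3 := hsub (D b) (Y \ D b)
      rw [union_sdiff_of_subset hb] at h3
      have h4 := hcard (Y \ D b)
      omega
    have h3 := card_sdiff_add_card_eq_card hb
    omega
  -- the largest matching
  have hK : ∀ K ∈ H.powerset.filter (fun K => r (K.biUnion id) = 2 * K.card),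
      K.card + 2 ≤ H.card := by
    intro K hK
    rw [mem_filter, mem_powerset] at hK
    obtain ⟨hK, hKr⟩ := hK
    have h1 : ∀ b, ¬ D b ⊆ K.biUnion id := by
      intro b hb
      have h2 := hind _ _ hb
      rw [hbi K hK] at h2
      omega
    by_contra hcon
    have h2 := card_le_card hK
    have h3 : (H \ K).card ≤ 1 := by
      rw [card_sdiff_of_subset hK]
      omega
    have h4 : ∃ b, ∀ P ∈ H \ K, Disjoint P (D b) := by
      rcases (H \ K).eq_empty_or_nonempty with h5 | ⟨P, hP⟩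
      · rw [h5]
        exact ⟨Classical.arbitrary β, by simp⟩
      · obtain ⟨b, hb⟩ := hPD P (mem_sdiff.1 hP).1
        refine ⟨b, fun Q hQ => ?_⟩
        rwa [card_le_one.1 h3 Q hQ P hP]
    obtain ⟨b, hb⟩ := h4
    apply h1 b
    intro e he
    obtain ⟨P, hP, heP⟩ := mem_biUnion.1 (hDX b he)
    by_cases hPK : P ∈ K
    · exact mem_biUnion.2 ⟨P, hPK, heP⟩
    · exact absurd he (disjoint_left.1 (hb P (mem_sdiff.2 ⟨hP, hPK⟩)) heP)
  have hr0 : r ∅ = 0 := by
    have := hcard ∅
    rw [card_empty] at this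
    omega
  have hH2 : 2 ≤ H.card := by
    have := hK ∅ (by
      rw [mem_filter]
      exact ⟨empty_mem_powerset _, by rw [biUnion_empty, hr0, card_empty]⟩)
    rwa [card_empty, zero_add] at this
  have hnu : nu r H + 2 ≤ H.card := by
    have : nu r H ≤ H.card - 2 := Finset.sup_le fun K hK' => by
      have := hK K hK'
      omega
    omega
  -- the value of an optimal pair
  have hne : {m | ∃ (Z : Finset α) (P : Finpartition H), IsFlat r Z ∧ m = value r Z P}.Nonempty :=
    ⟨value r univ (⊥ : Finpartition H), univ, ⊥, fun e he => absurd (mem_univ e) he, rfl⟩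
  obtain ⟨Z, π, hZ, hval⟩ := Nat.sInf_mem hne
  rw [← hmp'] at hval
  -- the rank of a union of parts over `Z`
  have hsum : ∀ K ⊆ π.parts, r (Z ∪ K.biUnion (fun Q => Q.biUnion id)) ≤
      r Z + ∑ Q ∈ K, (r (Z ∪ Q.biUnion id) - r Z) := by
    intro K
    induction K using Finset.induction_on with
    | empty =>
      intro _
      rw [biUnion_empty, union_empty, sum_empty, add_zero]
    | insert Q K hQK ih =>
      intro hK
      have h1 := ih (fun _ h => hK (mem_insert_of_mem h))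
      rw [biUnion_insert, sum_insert hQK]
      have h2 := hsub (Z ∪ Q.biUnion id) (Z ∪ K.biUnion (fun Q => Q.biUnion id))
      have h3 : (Z ∪ Q.biUnion id) ∪ (Z ∪ K.biUnion (fun Q => Q.biUnion id)) =
          Z ∪ (Q.biUnion id ∪ K.biUnion (fun Q => Q.biUnion id)) := by
        ext e
        simp only [mem_union]
        tauto
      rw [h3] at h2
      have h4 : r Z ≤ r ((Z ∪ Q.biUnion id) ∩ (Z ∪ K.biUnion (fun Q => Q.biUnion id))) :=
        hmono _ _ (subset_inter subset_union_left subset_union_left)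
      have h5 : r Z ≤ r (Z ∪ Q.biUnion id) := hmono _ _ subset_union_left
      omega
  have hXp : π.parts.biUnion (fun Q => Q.biUnion id) = X := by
    ext e
    simp only [mem_biUnion, hX, id]
    constructor
    · rintro ⟨Q, hQ, P, hP, he⟩
      exact ⟨P, π.le hQ hP, he⟩
    · rintro ⟨P, hP, he⟩
      obtain ⟨Q, hQ, hPQ⟩ := π.exists_mem hP
      exact ⟨Q, hQ, P, hPQ, he⟩
  have hZX := hsum π.parts (Subset.refl _)
  rw [hXp] at hZX
  have hle : ∀ Q ∈ π.parts, Q ⊆ H := fun Q hQ => π.le hQ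
  have hup : ∀ Y, r (Z ∪ Y) ≤ r Z + (Y \ Z).card := by
    intro Y
    have h1 := hsub Z (Y \ Z)
    rw [union_sdiff_self_eq_union] at h1
    have := hcard (Y \ Z)
    omega
  have hmodle : ∀ Q ∈ π.parts, (r (Z ∪ Q.biUnion id) - r Z) +
      (r (Z ∪ Q.biUnion id) - r Z) % 2 ≤ 2 * Q.card := by
    intro Q hQ
    have h1 := hup (Q.biUnion id)
    have h2 : (Q.biUnion id \ Z).card ≤ (Q.biUnion id).card := card_le_card sdiff_subset
    rw [hbi Q (hle Q hQ)] at h2
    omega
  have hcards : ∑ Q ∈ π.parts, Q.card = H.card := π.sum_card_parts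
  have hval2 : 2 * ∑ Q ∈ π.parts, (r (Z ∪ Q.biUnion id) - r Z) / 2 +
      ∑ Q ∈ π.parts, (r (Z ∪ Q.biUnion id) - r Z) % 2 =
      ∑ Q ∈ π.parts, (r (Z ∪ Q.biUnion id) - r Z) := by
    rw [mul_sum, ← sum_add_distrib]
    exact sum_congr rfl fun Q _ => Nat.div_add_mod _ 2
  have hmodsum := sum_le_sum hmodle
  rw [sum_add_distrib, ← mul_sum, hcards] at hmodsum
  have hrX : r X ≤ r (Z ∪ X) := hmono _ _ subset_union_right
  unfold value at hval
  set sx := ∑ Q ∈ π.parts, (r (Z ∪ Q.biUnion id) - r Z) with hsx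
  set sδ := ∑ Q ∈ π.parts, (r (Z ∪ Q.biUnion id) - r Z) % 2 with hsδ
  have e1 : sδ = r Z + 2 := by omega
  have e2 : sx + sδ = 2 * H.card := by omega
  have e3 : r (Z ∪ X) = r X := by omega
  -- `Z` is a subset of `X`
  have hZsub : Z ⊆ X := by
    intro e he
    by_contra heX
    have h1 := hflat e heX
    have h2 : r (insert e X) ≤ r (Z ∪ X) := hmono _ _ (by
      intro f hf
      rcases mem_insert.1 hf with rfl | hf
      · exact mem_union_left _ he
      · exact mem_union_right _ hf)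
    omega
  -- termwise equality
  have hterm : ∀ Q ∈ π.parts, (r (Z ∪ Q.biUnion id) - r Z) +
      (r (Z ∪ Q.biUnion id) - r Z) % 2 = 2 * Q.card := by
    apply (sum_eq_sum_iff_of_le hmodle).1
    rw [sum_add_distrib, ← mul_sum, hcards]
    exact e2
  have hZQ : ∀ Q ∈ π.parts, (Q.biUnion id ∩ Z).card ≤ (r (Z ∪ Q.biUnion id) - r Z) % 2 := by
    intro Q hQ
    have h1 := hterm Q hQ
    have h2 := hup (Q.biUnion id)
    have h3 := card_sdiff_add_card_inter (Q.biUnion id) Z
    rw [hbi Q (hle Q hQ)] at h3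
    omega
  -- `Z` meets each pair in at most one element
  have hpair : ∀ P ∈ H, ¬ P ⊆ Z := by
    intro P hP hPZ
    obtain ⟨Q, hQ, hPQ⟩ := π.exists_mem hP
    have h1 : P ⊆ Q.biUnion id ∩ Z :=
      subset_inter (fun e he => mem_biUnion.2 ⟨P, hPQ, he⟩) hPZ
    have h2 := card_le_card h1
    have h3 := hZQ Q hQ
    rw [hH P hP] at h2
    omega
  have hZind : Z.card = r Z := by
    by_contra hcon
    have h1 := hcard Z
    obtain ⟨b, hb⟩ := hdep Z hZsub (by omega)
    obtain ⟨P, hP, hPb⟩ := hDD b b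
    rw [inter_self] at hPb
    exact hpair P hP (hPb.trans hb)
  have hpdisj : ∀ Q ∈ π.parts, ∀ R ∈ π.parts, Q ≠ R → Disjoint (Q.biUnion id) (R.biUnion id) := by
    intro Q hQ R hR hQR
    rw [disjoint_left]
    intro e he he'
    obtain ⟨P, hP, heP⟩ := mem_biUnion.1 he
    obtain ⟨P', hP', heP'⟩ := mem_biUnion.1 he'
    have h1 : P = P' := by
      by_contra hne'
      exact disjoint_left.1 (hdisj P (hle Q hQ hP) P' (hle R hR hP') hne') heP heP'
    subst h1
    exact disjoint_left.1 (π.disjoint hQ hR hQR) hP hP'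
  have hZcard : ∑ Q ∈ π.parts, (Q.biUnion id ∩ Z).card = Z.card := by
    rw [← card_biUnion]
    · congr 1
      ext e
      simp only [mem_biUnion, mem_inter]
      constructor
      · rintro ⟨Q, -, -, he⟩
        exact he
      · intro he
        have h1 := hZsub he
        rw [← hXp] at h1
        obtain ⟨Q, hQ, heQ⟩ := mem_biUnion.1 h1
        exact ⟨Q, hQ, mem_biUnion.1 heQ, he⟩
    · intro Q hQ R hR hQR
      exact (hpdisj Q hQ R hR hQR).mono inter_subset_left inter_subset_left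
  -- two parts which are dependent over `Z` and disjoint from `Z`
  have htwo : 1 < (π.parts.filter fun Q =>
      (Q.biUnion id ∩ Z).card < (r (Z ∪ Q.biUnion id) - r Z) % 2).card := by
    have h1 : ∑ Q ∈ π.parts, (r (Z ∪ Q.biUnion id) - r Z) % 2 ≤
        ∑ Q ∈ π.parts, ((Q.biUnion id ∩ Z).card +
          if (Q.biUnion id ∩ Z).card < (r (Z ∪ Q.biUnion id) - r Z) % 2 then 1 else 0) := by
      apply sum_le_sum
      intro Q hQ
      have h2 := hZQ Q hQ
      split_ifs with h3 <;> omega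
    rw [sum_add_distrib, hZcard, ← card_filter] at h1
    omega
  obtain ⟨Q, hQ, R, hR, hQR⟩ := one_lt_card.1 htwo
  rw [mem_filter] at hQ hR
  have hpart : ∀ Q ∈ π.parts, (Q.biUnion id ∩ Z).card < (r (Z ∪ Q.biUnion id) - r Z) % 2 →
      ∃ b, D b ⊆ Z ∪ Q.biUnion id := by
    intro Q hQ h
    apply hdep
    · apply union_subset hZsub
      intro e he
      obtain ⟨P, hP, heP⟩ := mem_biUnion.1 he
      exact mem_biUnion.2 ⟨P, hle Q hQ hP, heP⟩
    · have h1 := hterm Q hQ
      have h2 : Disjoint Z (Q.biUnion id) := by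
        rw [disjoint_iff_inter_eq_empty, ← card_eq_zero, inter_comm]
        omega
      rw [card_union_of_disjoint h2, hbi Q (hle Q hQ), hZind]
      have h3 : r Z ≤ r (Z ∪ Q.biUnion id) := hmono _ _ subset_union_left
      omega
  obtain ⟨b, hb⟩ := hpart Q hQ.1 hQ.2
  obtain ⟨c, hc⟩ := hpart R hR.1 hR.2
  obtain ⟨P, hP, hPbc⟩ := hDD b c
  apply hpair P hP
  intro e he
  have h1 := mem_inter.1 (hPbc he)
  rcases mem_union.1 (hb h1.1) with h2 | h2
  · exact h2
  rcases mem_union.1 (hc h1.2) with h3 | h3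
  · exact h3
  exact absurd h3 (disjoint_left.1 (hpdisj Q hQ.1 R hR.1 hQR) h2)

end Pool.Agent.R115.Mm
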