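import Mathlib

/-!
# Matroid matching and generic rigidity: definitions
-/

set_option autoImplicit false

namespace Pool.Agent.R115.Mm

open Finset

section matching

variable {α : Type} [DecidableEq α]

/-- `Z` is a flat of the matroid with rank function `r`: adding any further element increases the
rank. -/
def IsFlat (r : Finset α → ℕ) (Z : Finset α) : Prop := ∀ e, e ∉ Z → r Z < r (insert e Z)

/-- The largest size `ν` of a matroid matching in the set `H` of pairs: the largest size of a
subset `K` of `H` such that the union of the pairs in `K` has rank `2 |K|`. -/
def nu (r : Finset α → ℕ) (H : Finset (Finset α)) : ℕ :=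
  (H.powerset.filter fun K => r (K.biUnion id) = 2 * K.card).sup card

/-- The value `r(Z) + ∑ ⌊(r(Z ∪ ⋃ H_i) - r(Z)) / 2⌋` of a flat `Z` and a partition of the set `H` of
pairs into classes `H_i`. -/
def value (r : Finset α → ℕ) (Z : Finset α) {H : Finset (Finset α)} (P : Finpartition H) : ℕ :=
  r Z + ∑ Q ∈ P.parts, (r (Z ∪ Q.biUnion id) - r Z) / 2

/-- The matroid with rank function `r` has the matroid matching property: for every set `H` of
two-element subsets of the ground set, `ν(H)` is the minimum of the values of a flat `Z` and a
partition of `H`. -/
def MatchingProperty (r : Finset α → ℕ) : Prop :=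
  ∀ H : Finset (Finset α), (∀ P ∈ H, P.card = 2) →
    nu r H = sInf {m | ∃ (Z : Finset α) (P : Finpartition H), IsFlat r Z ∧ m = value r Z P}

end matching

section rigidity

variable {V : Type} [Fintype V] [DecidableEq V] {d : ℕ}

/-- The edges of the complete graph on `V`: unordered pairs of distinct vertices. -/
abbrev Edge (V : Type) : Type := {e : Sym2 V // ¬ e.IsDiag}

/-- The row of the edge `e` of the rigidity matrix at `p`: it carries `p v - p u` in the `d` columns
of `v` when `e` joins `v` and `u`, and zeros elsewhere. -/
def rigRow (p : V → Fin d → ℝ) (e : Sym2 V) : V → Fin d → ℝ := fun v i =>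
  ∑ u, if s(v, u) = e then p v i - p u i else 0

/-- The rank function of the row matroid of the rigidity matrix at `p`, on the edges of the complete
graph on `V`. -/
noncomputable def rigRank (p : V → Fin d → ℝ) (X : Finset (Edge V)) : ℕ :=
  Module.finrank ℝ (Submodule.span ℝ ((fun e : Edge V => rigRow p e.1) '' (X : Set (Edge V))))

/-- The placement `p` is generic: its coordinates are algebraically independent over `ℚ`. -/
def Generic (p : V → Fin d → ℝ) : Prop :=
  AlgebraicIndependent ℚ (fun c : V × Fin d => p c.1 c.2)

end rigidity

end Pool.Agent.R115.Mm
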