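import Pool.Agent.R115.Mm.Defs

/-!
# Generic independence of points and of squares
-/

set_option autoImplicit false

namespace Pool.Agent.R115.Mm

open Finset MvPolynomial

theorem ker_gram {ι κ : Type} [Fintype ι] [Fintype κ] (M : Matrix ι κ ℝ) (g : ι → ℝ) :
    Matrix.vecMul g (M * M.transpose) = 0 ↔ Matrix.vecMul g M = 0 := by
  constructor
  · intro h
    have h3 : Matrix.vecMul g (M * M.transpose) ⬝ᵥ g = 0 := by rw [h, zero_dotProduct]
    rw [← Matrix.vecMul_vecMul, Matrix.vecMul_transpose, dotProduct_comm,
      Matrix.dotProduct_mulVec] at h3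
    exact dotProduct_self_eq_zero.1 h3
  · intro h
    rw [← Matrix.vecMul_vecMul, h, Matrix.zero_vecMul]

/-- polynomial vectors which are independent at one point are independent at generic points -/
theorem li_gen {σ ι κ : Type} [Fintype ι] [Fintype κ]
    (P : ι → κ → MvPolynomial σ ℚ) (x y : σ → ℝ) (hy : AlgebraicIndependent ℚ y)
    (hx : ∀ g : ι → ℝ, (∀ k, ∑ i, g i * aeval x (P i k) = 0) → g = 0) (g : ι → ℝ)
    (hg : ∀ k, ∑ i, g i * aeval y (P i k) = 0) : g = 0 := by
  classical
  let M : (σ → ℝ) → Matrix ι κ ℝ := fun z => Matrix.of fun i k => aeval z (P i k)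
  let Q : MvPolynomial σ ℚ := (Matrix.of P * (Matrix.of P).transpose).det
  have hQ : ∀ z, (M z * (M z).transpose).det = aeval z Q := by
    intro z
    rw [show aeval z Q = (aeval z : MvPolynomial σ ℚ →ₐ[ℚ] ℝ) Q from rfl, AlgHom.map_det]
    congr 1
    ext i j
    simp only [M, Matrix.mul_apply, Matrix.transpose_apply, Matrix.of_apply, AlgHom.mapMatrix_apply,
      Matrix.map_apply, map_sum, map_mul]
  have hx0 : aeval x Q ≠ 0 := by
    rw [← hQ]
    intro h0
    obtain ⟨v, hv, hv0⟩ := Matrix.exists_vecMul_eq_zero_iff.2 h0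
    rw [ker_gram] at hv0
    exact hv (hx v fun k => congrFun hv0 k)
  have hQ0 : Q ≠ 0 := by
    intro h
    rw [h, map_zero] at hx0
    exact hx0 rfl
  have hy0 : aeval y Q ≠ 0 := fun h => hQ0 (hy.eq_zero_of_aeval_eq_zero _ h)
  by_contra hne
  apply hy0
  rw [← hQ]
  apply Matrix.exists_vecMul_eq_zero_iff.1
  refine ⟨g, hne, ?_⟩
  rw [ker_gram]
  funext k
  exact hg k

variable {V : Type} [Fintype V] [DecidableEq V] {d : ℕ}

/-- homogeneous coordinates -/
def hat (p : V → Fin d → ℝ) (v : V) : Option (Fin d) → ℝ
  | none => 1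
  | some i => p v i

/-- homogeneous coordinates as polynomials -/
noncomputable def hatP (d : ℕ) (v : V) : Option (Fin d) → MvPolynomial (V × Fin d) ℚ
  | none => 1
  | some i => X (v, i)

omit [Fintype V] [DecidableEq V] in
theorem aeval_hatP (p : V → Fin d → ℝ) (v : V) (k : Option (Fin d)) :
    aeval (fun c : V × Fin d => p c.1 c.2) (hatP d v k) = hat p v k := by
  rcases k with _ | i
  · exact map_one _
  · exact aeval_X _ _

omit [DecidableEq V] in
theorem sum_sub (S : Finset V) (f : V → ℝ) (hf : ∀ v, v ∉ S → f v = 0) :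
    ∑ x : S, f x = ∑ v, f v := by
  rw [Finset.sum_coe_sort S f]
  exact Finset.sum_subset (subset_univ S) fun v _ hv => hf v hv

/-- at most `d + 1` generic points are affinely independent -/
theorem aff {p : V → Fin d → ℝ} (hp : Generic p) (c : V → ℝ) (S : Finset V)
    (hS : S.card ≤ d + 1) (hc : ∀ v, v ∉ S → c v = 0) (h : ∀ k, ∑ v, c v * hat p v k = 0) :
    c = 0 := by
  classical
  obtain ⟨φ⟩ : Nonempty (S ↪ Option (Fin d)) := by
    apply Function.Embedding.nonempty_of_card_le
    simpa using hS
  let q : V → Fin d → ℝ := fun v i => if h : v ∈ S then (if φ ⟨v, h⟩ = some i then 1 else 0) else 0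
  have hq : ∀ (v : S) i, q v i = if φ v = some i then 1 else 0 := fun v i => dif_pos v.2
  have key := li_gen (fun (v : S) k => hatP d (v : V) k) (fun c : V × Fin d => q c.1 c.2)
    (fun c : V × Fin d => p c.1 c.2) hp ?_ (fun v => c v) ?_
  · funext v
    by_cases hv : v ∈ S
    · exact congrFun key ⟨v, hv⟩
    · exact hc v hv
  · intro g hg
    simp only [aeval_hatP] at hg
    have h1 : ∀ v i, φ v = some i → g v = 0 := by
      intro v i hvi
      have h2 := hg (some i)
      simp only [hat, hq] at h2
      rw [Finset.sum_eq_single v] at h2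
      · rwa [if_pos hvi, mul_one] at h2
      · intro u _ hu
        rw [if_neg, mul_zero]
        intro h
        exact hu (φ.injective (h.trans hvi.symm))
      · intro h
        exact absurd (mem_univ v) h
    funext v
    rcases hv : φ v with _ | i
    · have h2 := hg none
      simp only [hat, mul_one] at h2
      rw [Finset.sum_eq_single v] at h2
      · exact h2
      · intro u _ hu
        rcases hu' : φ u with _ | i
        · exact absurd (φ.injective (hu'.trans hv.symm)) hu
        · exact h1 u i hu'
      · intro h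
        exact absurd (mem_univ v) h
    · exact h1 v i hv
  · intro k
    simp only [aeval_hatP]
    rw [← h k]
    exact sum_sub S (fun v => c v * hat p v k) fun v hv => by rw [hc v hv, zero_mul]

/-- coordinates with respect to the affine basis `0, e_1, …, e_d` -/
def dual (k : Option (Fin d)) : Option (Fin d) → ℝ := fun j =>
  match k with
  | none => (match j with
    | none => 1
    | some _ => -1)
  | some i => if j = some i then 1 else 0

omit [Fintype V] [DecidableEq V] in
/-- the coordinates of the midpoint of two points of the affine basis -/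
theorem dual_mid (q : V → Fin d → ℝ) (v : V) (a b : Option (Fin d))
    (hq : ∀ i, q v i = ((if a = some i then 1 else 0) + (if b = some i then 1 else 0)) / 2)
    (k : Option (Fin d)) :
    ∑ j, dual k j * hat q v j = ((if a = k then 1 else 0) + (if b = k then 1 else 0)) / 2 := by
  rw [Fintype.sum_option]
  rcases k with _ | i
  · simp only [dual, hat, one_mul, neg_mul, Finset.sum_neg_distrib, hq]
    rw [← Finset.sum_div, Finset.sum_add_distrib]
    have h1 : ∀ a : Option (Fin d), (∑ i, if a = some i then (1 : ℝ) else 0) =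
        1 - if a = none then 1 else 0 := by
      intro a
      rcases a with _ | i
      · simp
      · simp
    rw [h1, h1]
    ring
  · simp only [dual, hat]
    rw [if_neg (by simp), zero_mul, zero_add, Finset.sum_eq_single i]
    · rw [if_pos rfl, one_mul, hq]
    · intro j _ hj
      rw [if_neg (fun h => hj (Option.some_injective _ h)), zero_mul]
    · intro h
      exact absurd (mem_univ i) h

theorem contr {ι κ : Type} [Fintype ι] [Fintype κ] (α : κ → ℝ) (g y : ι → ℝ) (x : ι → κ → ℝ)
    (τ y1 y2 : ℝ) (x1 x2 : κ → ℝ)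
    (h : ∀ j, ∑ v, g v * (x v j * y v) + τ * (x1 j * y1 + x2 j * y2) = 0) :
    ∑ v, g v * ((∑ j, α j * x v j) * y v) +
      τ * ((∑ j, α j * x1 j) * y1 + (∑ j, α j * x2 j) * y2) = 0 := by
  have h1 : ∑ j, α j * (∑ v, g v * (x v j * y v) + τ * (x1 j * y1 + x2 j * y2)) = 0 :=
    Finset.sum_eq_zero fun j _ => by rw [h j, mul_zero]
  rw [← h1]
  simp only [mul_add, Finset.sum_add_distrib, Finset.mul_sum, Finset.sum_mul]
  rw [Finset.sum_comm]
  congr 1
  · apply Finset.sum_congr rfl
    intro j _
    apply Finset.sum_congr rfl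
    intro v _
    ring
  · congr 1
    · apply Finset.sum_congr rfl
      intro j _
      ring
    · apply Finset.sum_congr rfl
      intro j _
      ring

theorem mid_zero (a b k l : Option (Fin d)) (hkl : k ≠ l) (h : s(a, b) ≠ s(k, l)) :
    ((if a = l then (1 : ℝ) else 0) + (if b = l then 1 else 0)) *
      ((if a = k then 1 else 0) + (if b = k then 1 else 0)) = 0 := by
  by_cases e1 : a = l
  · have e2 : b ≠ k := fun e2 => h (by rw [e1, e2, Sym2.eq_swap])
    have e3 : a ≠ k := fun e3 => hkl (e3.symm.trans e1)
    rw [if_neg e2, if_neg e3]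
    simp
  · by_cases e2 : b = l
    · have e3 : a ≠ k := fun e3 => h (by rw [e3, e2])
      have e4 : b ≠ k := fun e4 => hkl (e4.symm.trans e2)
      rw [if_neg e3, if_neg e4]
      simp
    · rw [if_neg e1, if_neg e2]
      simp

/-- the squares of few generic points and the product of two of them are linearly independent -/
theorem quad {p : V → Fin d → ℝ} (hp : Generic p) (c : V → ℝ) (S : Finset V)
    (hS : 2 * S.card + 2 ≤ (d + 2) * (d + 1)) (hc : ∀ v, v ∉ S → c v = 0) (s t : V) (hs : s ∈ S)
    (ht : t ∈ S) (hst : s ≠ t) (hd : 0 < d) (τ : ℝ)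
    (h : ∀ k l, ∑ v, c v * (hat p v k * hat p v l) +
      τ * (hat p s k * hat p t l + hat p t k * hat p s l) = 0) :
    c = 0 ∧ τ = 0 := by
  classical
  set i0 : Option (Fin d) := none with hi0
  set i1 : Option (Fin d) := some ⟨0, hd⟩ with hi1
  have h01 : i0 ≠ i1 := by simp [hi0, hi1]
  -- an assignment of midpoints
  let T : Finset (Sym2 (Option (Fin d))) := univ \ {s(i0, i0), s(i1, i1), s(i0, i1)}
  have hT : 2 * (T.card + 3) = (d + 2) * (d + 1) := by
    have h1 : ({s(i0, i0), s(i1, i1), s(i0, i1)} : Finset (Sym2 (Option (Fin d)))).card = 3 := by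
      rw [card_eq_three]
      refine ⟨_, _, _, ?_, ?_, ?_, rfl⟩
      · simp [h01]
      · simp [h01]
      · simp [h01.symm]
    have h2 : 2 * (univ : Finset (Sym2 (Option (Fin d)))).card = (d + 2) * (d + 1) := by
      rw [card_univ, Sym2.card, Fintype.card_option, Fintype.card_fin, Nat.choose_two_right]
      rw [Nat.mul_div_cancel' (Nat.even_mul_pred_self _).two_dvd]
      rfl
    have h3 := card_sdiff_add_card_eq_card (subset_univ
      ({s(i0, i0), s(i1, i1), s(i0, i1)} : Finset (Sym2 (Option (Fin d)))))
    rw [h1] at h3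
    rw [← h2, ← h3]
  have hcard : ((S.erase s).erase t).card + 2 = S.card := by
    have h1 : (S.erase s).card + 1 = S.card := card_erase_add_one hs
    have h2 : ((S.erase s).erase t).card + 1 = (S.erase s).card :=
      card_erase_add_one (mem_erase.2 ⟨hst.symm, ht⟩)
    omega
  obtain ⟨φ0⟩ : Nonempty (((S.erase s).erase t : Finset V) ↪ T) := by
    apply Function.Embedding.nonempty_of_card_le
    rw [Fintype.card_coe, Fintype.card_coe]
    omega
  let φ : V → Sym2 (Option (Fin d)) := fun v => if v = s then s(i0, i0) else if v = t then s(i1, i1)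
    else if h : v ∈ (S.erase s).erase t then (φ0 ⟨v, h⟩ : Sym2 (Option (Fin d))) else s(i0, i0)
  have hφs : φ s = s(i0, i0) := if_pos rfl
  have hφt : φ t = s(i1, i1) := by
    show (if t = s then s(i0, i0) else if t = t then s(i1, i1) else _) = s(i1, i1)
    rw [if_neg hst.symm, if_pos rfl]
  have hφv : ∀ v (h : v ∈ (S.erase s).erase t), φ v = φ0 ⟨v, h⟩ := by
    intro v h
    have h1 := mem_erase.1 h
    have h2 := mem_erase.1 h1.2
    simp only [φ]
    rw [if_neg h2.1, if_neg h1.1, dif_pos h]
  have hφT : ∀ v (h : v ∈ (S.erase s).erase t), φ v ≠ s(i0, i0) ∧ φ v ≠ s(i1, i1) ∧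
      φ v ≠ s(i0, i1) := by
    intro v h
    rw [hφv v h]
    have h1 := (φ0 ⟨v, h⟩).2
    simp only [T, mem_sdiff, mem_insert, mem_singleton, mem_univ, true_and] at h1
    push Not at h1
    exact h1
  have hcases : ∀ v ∈ S, v = s ∨ v = t ∨ v ∈ (S.erase s).erase t := by
    intro v hv
    by_cases h1 : v = s
    · exact Or.inl h1
    by_cases h2 : v = t
    · exact Or.inr (Or.inl h2)
    exact Or.inr (Or.inr (mem_erase.2 ⟨h2, mem_erase.2 ⟨h1, hv⟩⟩))
  have hne01 : (s(i0, i0) : Sym2 (Option (Fin d))) ≠ s(i1, i1) := by simp [h01]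
  have hφinj : ∀ u ∈ S, ∀ v ∈ S, φ u = φ v → u = v := by
    intro u hu v hv huv
    rcases hcases u hu with rfl | rfl | hu' <;> rcases hcases v hv with rfl | rfl | hv'
    · rfl
    · rw [hφs, hφt] at huv
      exact absurd huv hne01
    · rw [hφs] at huv
      exact absurd huv.symm (hφT v hv').1
    · rw [hφs, hφt] at huv
      exact absurd huv.symm hne01
    · rfl
    · rw [hφt] at huv
      exact absurd huv.symm (hφT v hv').2.1
    · rw [hφs] at huv
      exact absurd huv (hφT u hu').1
    · rw [hφt] at huv
      exact absurd huv (hφT u hu').2.1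
    · rw [hφv u hu', hφv v hv'] at huv
      exact congrArg Subtype.val (φ0.injective (Subtype.ext huv))
  have hφ01 : ∀ v ∈ S, φ v ≠ s(i0, i1) := by
    intro v hv
    rcases hcases v hv with rfl | rfl | hv'
    · rw [hφs]
      simp [h01]
    · rw [hφt]
      simp [h01.symm]
    · exact (hφT v hv').2.2
  have hex : ∀ v, ∃ a b, φ v = s(a, b) := fun v => by
    induction φ v using Sym2.ind with
    | _ a b => exact ⟨a, b, rfl⟩
  choose a b hab using hex
  let q : V → Fin d → ℝ := fun v i =>
    ((if a v = some i then 1 else 0) + (if b v = some i then 1 else 0)) / 2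
  have hdual : ∀ v k, ∑ j, dual k j * hat q v j =
      ((if a v = k then 1 else 0) + (if b v = k then 1 else 0)) / 2 := fun v k =>
    dual_mid q v (a v) (b v) (fun i => rfl) k
  let P : Option S → Option (Fin d) × Option (Fin d) → MvPolynomial (V × Fin d) ℚ := fun x kl =>
    match x with
    | none => hatP d s kl.1 * hatP d t kl.2 + hatP d t kl.1 * hatP d s kl.2
    | some v => hatP d (v : V) kl.1 * hatP d (v : V) kl.2
  have key := li_gen P (fun c : V × Fin d => q c.1 c.2)
    (fun c : V × Fin d => p c.1 c.2) hp ?_ (fun x => match x with | none => τ | some v => c v) ?_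
  · refine ⟨?_, congrFun key none⟩
    funext v
    by_cases hv : v ∈ S
    · exact congrFun key (some ⟨v, hv⟩)
    · exact hc v hv
  · intro g hg
    have hg' : ∀ k l, ∑ v : S, g (some v) * (hat q v k * hat q v l) +
        g none * (hat q s k * hat q t l + hat q t k * hat q s l) = 0 := by
      intro k l
      have h1 := hg (k, l)
      rw [Fintype.sum_option] at h1
      simp only [P, map_add, map_mul, aeval_hatP] at h1
      rw [← h1]
      ring
    have hg1 : ∀ k l, ∑ v : S, g (some v) * ((∑ j, dual k j * hat q v j) * hat q v l) +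
        g none * ((∑ j, dual k j * hat q s j) * hat q t l +
          (∑ j, dual k j * hat q t j) * hat q s l) = 0 := fun k l =>
      contr (dual k) (fun v : S => g (some v)) (fun v : S => hat q v l) (fun v : S => hat q v)
        (g none) (hat q t l) (hat q s l) (hat q s) (hat q t) (fun j => hg' j l)
    have hg2 : ∀ k l, ∑ v : S, g (some v) * ((∑ j, dual l j * hat q v j) *
        (∑ j, dual k j * hat q v j)) +
        g none * ((∑ j, dual l j * hat q t j) * (∑ j, dual k j * hat q s j) +
          (∑ j, dual l j * hat q s j) * (∑ j, dual k j * hat q t j)) = 0 := fun k l =>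
      contr (dual l) (fun v : S => g (some v)) (fun v : S => ∑ j, dual k j * hat q v j)
        (fun v : S => hat q v)
        (g none) (∑ j, dual k j * hat q s j) (∑ j, dual k j * hat q t j) (hat q t) (hat q s)
        (fun j => by
          rw [← hg1 k j]
          congr 1
          · apply Finset.sum_congr rfl
            intro v _
            ring
          · ring)
    simp only [hdual] at hg2
    have hsa : a s = i0 ∧ b s = i0 := by
      have := (hab s).symm.trans hφs
      rw [Sym2.eq_iff] at this
      rcases this with h | h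
      · exact h
      · exact ⟨h.1, h.2⟩
    have hta : a t = i1 ∧ b t = i1 := by
      have := (hab t).symm.trans hφt
      rw [Sym2.eq_iff] at this
      rcases this with h | h
      · exact h
      · exact ⟨h.1, h.2⟩
    rw [hsa.1, hsa.2, hta.1, hta.2] at hg2
    -- midpoints
    have hmid : ∀ v : S, a v ≠ b v → g (some v) = 0 := by
      intro v hv
      have h1 := hg2 (a v) (b v)
      have hva : s(i0, i1) ≠ s(a (v : V), b v) := fun h => hφ01 v v.2 ((hab v).trans h.symm)
      have h2 := mid_zero i0 i1 (a v) (b v) hv hva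
      have h3 : ∀ x : ℝ, (((if i1 = b v then (1 : ℝ) else 0) + (if i1 = b v then 1 else 0)) / 2 *
          (((if i0 = a v then 1 else 0) + (if i0 = a v then 1 else 0)) / 2) +
          ((if i0 = b v then 1 else 0) + (if i0 = b v then 1 else 0)) / 2 *
          (((if i1 = a v then 1 else 0) + (if i1 = a v then 1 else 0)) / 2)) = 0 := by
        intro _
        by_cases e1 : i0 = b v
        · have e2 : i1 ≠ a v := fun e2 => hva (by rw [← e1, ← e2, Sym2.eq_swap])
          have e3 : i1 ≠ b v := fun e3 => h01 (e1.trans e3.symm)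
          rw [if_neg e2, if_neg e3]
          simp
        · rw [if_neg e1]
          by_cases e2 : i1 = b v
          · have e3 : i0 ≠ a v := fun e3 => hva (by rw [← e3, ← e2])
            rw [if_neg e3]
            simp
          · rw [if_neg e2]
            simp
      rw [h3 0, mul_zero, add_zero, Finset.sum_eq_single v] at h1
      · rw [if_pos rfl, if_pos rfl, if_neg hv, if_neg hv.symm] at h1
        norm_num at h1
        exact h1
      · intro u _ hu
        have h4 : s(a (u : V), b u) ≠ s(a (v : V), b v) := fun h => hu (Subtype.ext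
          (hφinj u u.2 v v.2 ((hab u).trans (h.trans (hab v).symm))))
        have h5 := mid_zero (a u) (b u) (a v) (b v) hv h4
        rw [div_mul_div_comm, h5, zero_div, mul_zero]
      · intro h
        exact absurd (mem_univ v) h
    have hτ : g none = 0 := by
      have h1 := hg2 i0 i1
      rw [Finset.sum_eq_zero, zero_add, if_pos rfl, if_pos rfl, if_neg h01, if_neg h01.symm] at h1
      · norm_num at h1
        exact h1
      · intro u _
        have h4 : s(a (u : V), b u) ≠ s(i0, i1) := fun h => hφ01 u u.2 ((hab u).trans h)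
        have h5 := mid_zero (a u) (b u) i0 i1 h01 h4
        rw [div_mul_div_comm, h5, zero_div, mul_zero]
    funext x
    rcases x with _ | v
    · exact hτ
    · by_cases hv : a v = b v
      · have h1 := hg2 (a v) (a v)
        rw [hτ, zero_mul, add_zero, Finset.sum_eq_single v] at h1
        · rw [← hv, if_pos rfl] at h1
          norm_num at h1
          exact h1
        · intro u _ hu
          by_cases hu' : a u = b u
          · have h4 : a u ≠ a v := fun h => hu (Subtype.ext (hφinj u u.2 v v.2 (by
              rw [hab u, hab v, ← hu', ← hv, h])))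
            rw [← hu', if_neg h4]
            simp
          · rw [hmid u hu', zero_mul]
        · intro h
          exact absurd (mem_univ v) h
      · exact hmid v hv
  · rintro ⟨k, l⟩
    rw [Fintype.sum_option]
    simp only [P, map_add, map_mul, aeval_hatP]
    rw [add_comm, ← h k l]
    congr 1
    exact sum_sub S (fun v => c v * (hat p v k * hat p v l)) fun v hv => by rw [hc v hv, zero_mul]

end Pool.Agent.R115.Mm
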