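import Pool.Agent.R115.Mm.Bal
import Pool.Agent.R115.Mm.Comb

/-!
# The matroid matching property fails in odd dimensions
-/

set_option autoImplicit false

namespace Pool.Agent.R115.Mm

open Finset

variable {V : Type} [Fintype V] [DecidableEq V] {k : ℕ}

/-- index type of the edges at a vertex -/
abbrev TT (k : ℕ) : Type := Fin (k + 2) × Bool

/-- index type of the right side -/
abbrev JJ (k : ℕ) : Type := Fin (2 * k + 4)

/-- index type of the vertices -/
abbrev Idx (k : ℕ) : Type := TT k ⊕ (JJ k ⊕ JJ k)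

variable (ι : Idx k ↪ V)

/-- the index of the pendant edges -/
def x0 : TT k := (0, true)

/-- left vertices -/
def va (x : TT k) : V := ι (Sum.inl x)

/-- right vertices -/
def vb (j : JJ k) : V := ι (Sum.inr (Sum.inl j))

/-- pendant vertices -/
def vw (j : JJ k) : V := ι (Sum.inr (Sum.inr j))

/-- the other end of the edge `x` at the right vertex `j` -/
def hd (j : JJ k) (x : TT k) : V := if x = x0 then vw ι j else va ι x

omit [Fintype V] [DecidableEq V] in
theorem va_inj {x y : TT k} (h : va ι x = va ι y) : x = y := by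
  have := ι.injective h
  simpa using this

omit [Fintype V] [DecidableEq V] in
theorem vb_inj {x y : JJ k} (h : vb ι x = vb ι y) : x = y := by
  have := ι.injective h
  simpa using this

omit [Fintype V] [DecidableEq V] in
theorem va_ne_vb (x : TT k) (j : JJ k) : va ι x ≠ vb ι j := by
  intro h
  have := ι.injective h
  simp at this

omit [Fintype V] [DecidableEq V] in
theorem va_ne_vw (x : TT k) (j : JJ k) : va ι x ≠ vw ι j := by
  intro h
  have := ι.injective h
  simp at this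

omit [Fintype V] [DecidableEq V] in
theorem vb_ne_vw (x : JJ k) (j : JJ k) : vb ι x ≠ vw ι j := by
  intro h
  have := ι.injective h
  simp at this

omit [Fintype V] [DecidableEq V] in
theorem vw_inj {x y : JJ k} (h : vw ι x = vw ι y) : x = y := by
  have := ι.injective h
  simpa using this

omit [Fintype V] [DecidableEq V] in
theorem hd_ne_vb (j : JJ k) (x : TT k) (i : JJ k) : hd ι j x ≠ vb ι i := by
  unfold hd
  split_ifs
  · exact (vb_ne_vw ι i j).symm
  · exact va_ne_vb ι x i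

omit [Fintype V] [DecidableEq V] in
theorem hd_inj {j : JJ k} {x y : TT k} (h : hd ι j x = hd ι j y) : x = y := by
  unfold hd at h
  split_ifs at h with h1 h2 h2
  · rw [h1, h2]
  · exact absurd h.symm (va_ne_vw ι y j)
  · exact absurd h (va_ne_vw ι x j)
  · exact va_inj ι h

/-- the edges of the graph -/
def ed (jx : JJ k × TT k) : Edge V :=
  ⟨s(hd ι jx.1 jx.2, vb ι jx.1), by
    rw [Sym2.mk_isDiag_iff]
    exact hd_ne_vb ι _ _ _⟩

omit [Fintype V] [DecidableEq V] in
theorem ed_inj : Function.Injective (ed ι) := by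
  rintro ⟨j, x⟩ ⟨i, y⟩ h
  have h1 := congrArg Subtype.val h
  simp only [ed] at h1
  rw [Sym2.eq_iff] at h1
  rcases h1 with ⟨h2, h3⟩ | ⟨h2, -⟩
  · have h4 := vb_inj ι h3
    subst h4
    rw [hd_inj ι h2]
  · exact absurd h2 (hd_ne_vb ι _ _ _)

/-- the edges of the graph -/
def XX : Finset (Edge V) := univ.image (ed ι)

/-- the pairs -/
def PP (jt : JJ k × Fin (k + 2)) : Finset (Edge V) :=
  {ed ι (jt.1, (jt.2, false)), ed ι (jt.1, (jt.2, true))}

/-- the set of pairs -/
def HH : Finset (Finset (Edge V)) := univ.image (PP ι)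

/-- the circuits -/
def DD (j : JJ k) : Finset (Edge V) := (univ.filter fun ix : JJ k × TT k =>
  ix.1 ≠ j ∧ ix.2 ≠ x0).image (ed ι)

omit [Fintype V] in
theorem mem_PP (e : Edge V) (jt : JJ k × Fin (k + 2)) :
    e ∈ PP ι jt ↔ ∃ b, e = ed ι (jt.1, (jt.2, b)) := by
  unfold PP
  rw [mem_insert, mem_singleton]
  constructor
  · rintro (h | h)
    · exact ⟨_, h⟩
    · exact ⟨_, h⟩
  · rintro ⟨_ | _, h⟩
    · exact Or.inl h
    · exact Or.inr h

omit [Fintype V] in
theorem biUnion_HH : (HH ι).biUnion id = XX ι := by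
  ext e
  simp only [mem_biUnion, HH, XX, mem_image, mem_univ, true_and, id]
  constructor
  · rintro ⟨_, ⟨jt, rfl⟩, he⟩
    obtain ⟨b, rfl⟩ := (mem_PP ι e jt).1 he
    exact ⟨_, rfl⟩
  · rintro ⟨⟨j, t, b⟩, rfl⟩
    exact ⟨_, ⟨(j, t), rfl⟩, (mem_PP ι _ _).2 ⟨b, rfl⟩⟩

omit [Fintype V] in
theorem card_PP (jt : JJ k × Fin (k + 2)) : (PP ι jt).card = 2 := by
  apply card_pair
  intro h
  have := ed_inj ι h
  simp at this

omit [Fintype V] in
theorem disj_PP (jt iu : JJ k × Fin (k + 2)) (h : PP ι jt ≠ PP ι iu) :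
    Disjoint (PP ι jt) (PP ι iu) := by
  rw [disjoint_left]
  intro e h1 h2
  obtain ⟨b, hb⟩ := (mem_PP ι e jt).1 h1
  obtain ⟨c, hc⟩ := (mem_PP ι e iu).1 h2
  have h3 := ed_inj ι (hb.symm.trans hc)
  simp only [Prod.mk.injEq] at h3
  exact h (by rw [Prod.ext h3.1 h3.2.1])

omit [Fintype V] in
theorem card_HH : 2 * (HH ι).card = (XX ι).card := by
  have h1 : (HH ι).card = Fintype.card (JJ k × Fin (k + 2)) := by
    unfold HH
    rw [card_image_of_injective, card_univ]
    intro jt iu h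
    have h2 : ed ι (jt.1, (jt.2, false)) ∈ PP ι iu := by
      rw [← h]
      exact (mem_PP ι _ _).2 ⟨false, rfl⟩
    obtain ⟨b, hb⟩ := (mem_PP ι _ _).1 h2
    have h3 := ed_inj ι hb
    simp only [Prod.mk.injEq] at h3
    exact Prod.ext h3.1 h3.2.1
  have h2 : (XX ι).card = Fintype.card (JJ k × TT k) := by
    unfold XX
    rw [card_image_of_injective _ (ed_inj ι), card_univ]
  rw [h1, h2]
  simp only [Fintype.card_prod, Fintype.card_fin, Fintype.card_bool]
  ring

/-- the left vertices of the bipartite graph -/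
def AA : Finset V := (univ.filter fun x : TT k => x ≠ x0).image (va ι)

/-- the right vertices of the bipartite graph -/
def BB : Finset V := univ.image (vb ι)

omit [Fintype V] in
theorem card_AA : (AA ι).card = 2 * k + 3 := by
  unfold AA
  rw [card_image_of_injective _ (fun x y h => va_inj ι h), filter_ne' univ x0,
    card_erase_of_mem (mem_univ _), card_univ]
  simp only [Fintype.card_prod, Fintype.card_fin, Fintype.card_bool]
  omega

omit [Fintype V] in
theorem card_BB : (BB ι).card = 2 * k + 4 := by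
  unfold BB
  rw [card_image_of_injective _ (fun x y h => vb_inj ι h), card_univ, Fintype.card_fin]

omit [Fintype V] in
theorem mem_AA (v : V) : v ∈ AA ι ↔ ∃ x, x ≠ x0 ∧ va ι x = v := by
  simp [AA]

omit [Fintype V] in
theorem mem_BB (v : V) : v ∈ BB ι ↔ ∃ j, vb ι j = v := by
  simp [BB]

/-- the signs of the vertices -/
noncomputable def sg (v : V) : ℝ := if v ∈ AA ι then 1 else if v ∈ BB ι then -1 else 0

omit [Fintype V] in
theorem sg_va {x : TT k} (hx : x ≠ x0) : sg ι (va ι x) = 1 :=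
  if_pos ((mem_AA ι _).2 ⟨x, hx, rfl⟩)

omit [Fintype V] in
theorem vb_notMem (j : JJ k) : vb ι j ∉ AA ι := by
  rw [mem_AA]
  rintro ⟨x, -, h⟩
  exact va_ne_vb ι x j h

omit [Fintype V] in
theorem sg_vb (j : JJ k) : sg ι (vb ι j) = -1 := by
  unfold sg
  rw [if_neg (vb_notMem ι j), if_pos ((mem_BB ι _).2 ⟨j, rfl⟩)]

omit [Fintype V] in
theorem sg_zero {v : V} (hv : v ∉ AA ι ∪ BB ι) : sg ι v = 0 := by
  rw [mem_union, not_or] at hv
  unfold sg
  rw [if_neg hv.1, if_neg hv.2]

omit [Fintype V] in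
theorem card_AB : (AA ι ∪ BB ι).card ≤ 4 * k + 7 := by
  refine (card_union_le _ _).trans ?_
  rw [card_AA, card_BB]
  omega

omit [Fintype V] in
theorem mem_XX (e : Edge V) : e ∈ XX ι ↔ ∃ j x, e.1 = s(hd ι j x, vb ι j) := by
  unfold XX
  rw [mem_image]
  constructor
  · rintro ⟨⟨j, x⟩, -, rfl⟩
    exact ⟨j, x, rfl⟩
  · rintro ⟨j, x, h⟩
    exact ⟨(j, x), mem_univ _, Subtype.ext h.symm⟩

omit [Fintype V] in
theorem mem_DD (e : Edge V) (i : JJ k) :
    e ∈ DD ι i ↔ ∃ j x, j ≠ i ∧ x ≠ x0 ∧ e.1 = s(va ι x, vb ι j) := by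
  unfold DD
  rw [mem_image]
  constructor
  · rintro ⟨⟨j, x⟩, h, rfl⟩
    rw [mem_filter] at h
    refine ⟨j, x, h.2.1, h.2.2, ?_⟩
    show s(hd ι j x, vb ι j) = _
    unfold hd
    rw [if_neg h.2.2]
  · rintro ⟨j, x, h1, h2, h⟩
    refine ⟨(j, x), ?_, Subtype.ext ?_⟩
    · rw [mem_filter]
      exact ⟨mem_univ _, h1, h2⟩
    · rw [h]
      show s(hd ι j x, vb ι j) = _
      unfold hd
      rw [if_neg h2]

variable {p : V → Fin (2 * k + 1) → ℝ}

/-- the stress vanishes on the pendant edges -/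
theorem pend (hk : 2 ≤ k) (hp : Generic p) {c : Sym2 V → ℝ} (hc : Stress p c)
    (hdiag : ∀ v, c s(v, v) = 0)
    (hw : ∀ j u, c s(vw ι j, u) ≠ 0 → u = vb ι j) (j : JJ k) (u : V) : c s(vw ι j, u) = 0 :=
  stress_local hp hc hdiag (vw ι j) {vb ι j} (by rw [card_singleton]; omega)
    (fun u hu => mem_singleton.2 (hw j u hu)) u

/-- a row of a stress with vanishing sum and small support vanishes -/
theorem row_zero (hp : Generic p) {c : Sym2 V → ℝ} (hc : Stress p c) (z : V)
    (hσ : ∑ u, c s(z, u) = 0) (N : Finset V) (hN : N.card ≤ 2 * k + 2)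
    (h : ∀ u, c s(z, u) ≠ 0 → u ∈ N) (u : V) : c s(z, u) = 0 := by
  have h1 := aff hp (fun u => c s(z, u)) N (by omega) (fun v hv => by
    by_contra h0
    exact hv (h v h0)) (fun k => by
      rw [stress_hat hc z k, hσ, zero_mul])
  exact congrFun h1 u

theorem dep_DD (hk : 2 ≤ k) (hp : Generic p) (Y : Finset (Edge V)) (hY : Y ⊆ XX ι)
    (h : rigRank p Y < Y.card) : ∃ j, DD ι j ⊆ Y := by
  obtain ⟨c, hc, hsupp, hne⟩ := stress_of_dep p Y h
  by_contra hcon
  push Not at hcon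
  have hdiag : ∀ v, c s(v, v) = 0 := by
    intro v
    by_contra h0
    obtain ⟨f, -, hf⟩ := hsupp _ h0
    exact f.2 (by rw [hf, Sym2.mk_isDiag_iff])
  have hX : ∀ u v, c s(u, v) ≠ 0 → ∃ j x, s(u, v) = s(hd ι j x, vb ι j) := by
    intro u v h0
    obtain ⟨f, hf, hfe⟩ := hsupp _ h0
    obtain ⟨j, x, hjx⟩ := (mem_XX ι f).1 (hY hf)
    exact ⟨j, x, hfe.symm.trans hjx⟩
  have hw : ∀ j u, c s(vw ι j, u) ≠ 0 → u = vb ι j := by
    intro j u h0
    obtain ⟨i, x, hix⟩ := hX _ _ h0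
    rw [Sym2.eq_iff] at hix
    rcases hix with ⟨h1, h2⟩ | ⟨h1, -⟩
    · unfold hd at h1
      split_ifs at h1
      · rw [h2, vw_inj ι h1]
      · exact absurd h1.symm (va_ne_vw ι x j)
    · exact absurd h1.symm (vb_ne_vw ι i j)
  have hpend := pend ι hk hp hc hdiag hw
  have hcase : ∀ u v, c s(u, v) ≠ 0 → ∃ j x, x ≠ x0 ∧
      ((u = va ι x ∧ v = vb ι j) ∨ (u = vb ι j ∧ v = va ι x)) := by
    intro u v h0
    obtain ⟨j, x, hjx⟩ := hX _ _ h0
    by_cases hx : x = x0
    · exfalso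
      rw [hjx] at h0
      unfold hd at h0
      rw [if_pos hx] at h0
      exact h0 (hpend j _)
    · unfold hd at hjx
      rw [if_neg hx, Sym2.eq_iff] at hjx
      exact ⟨j, x, hx, hjx⟩
  have hmiss : ∀ j, ∃ i x, i ≠ j ∧ x ≠ x0 ∧ c s(va ι x, vb ι i) = 0 := by
    intro j
    obtain ⟨e, he, heY⟩ := not_subset.1 (hcon j)
    obtain ⟨i, x, hi, hx, hex⟩ := (mem_DD ι e j).1 he
    refine ⟨i, x, hi, hx, ?_⟩
    by_contra h0
    obtain ⟨f, hf, hfe⟩ := hsupp _ h0
    apply heY
    rwa [show e = f from Subtype.ext (hex.trans hfe.symm)]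
  have e1 : ((0, false) : TT k) ≠ x0 := by simp [x0]
  have e2 : ((1, false) : TT k) ≠ x0 := by simp [x0]
  have e3 : va ι ((0, false) : TT k) ≠ va ι ((1, false) : TT k) := fun h => by
    have := va_inj ι h
    simp at this
  have hS : 2 * (AA ι ∪ BB ι).card + 2 ≤ (2 * k + 1 + 2) * (2 * k + 1 + 1) := by
    have := card_AB ι
    nlinarith
  have hbal := (balance hp hc (AA ι ∪ BB ι) hS (by omega) (va ι (0, false)) (va ι (1, false))
    (mem_union_left _ ((mem_AA ι _).2 ⟨_, e1, rfl⟩)) (mem_union_left _ ((mem_AA ι _).2 ⟨_, e2, rfl⟩))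
    e3 (sg ι) (fun v hv => sg_zero ι hv) (fun u v h0 => by
      left
      obtain ⟨j, x, hx, ⟨rfl, rfl⟩ | ⟨rfl, rfl⟩⟩ := hcase u v h0
      · rw [sg_va ι hx, sg_vb]
        ring
      · rw [sg_va ι hx, sg_vb]
        ring)).1
  have hσa : ∀ x, x ≠ x0 → ∑ u, c s(va ι x, u) = 0 := by
    intro x hx
    have := hbal (va ι x)
    rwa [sg_va ι hx, one_mul] at this
  have hσb : ∀ j, ∑ u, c s(vb ι j, u) = 0 := by
    intro j
    have := hbal (vb ι j)
    rw [sg_vb] at this
    linarith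
  have hcol : ∀ j x, x ≠ x0 → c s(va ι x, vb ι j) = 0 → ∀ u, c s(vb ι j, u) = 0 := by
    intro j x hx h0
    apply row_zero hp hc _ (hσb j) ((AA ι).erase (va ι x))
    · rw [card_erase_of_mem ((mem_AA ι _).2 ⟨x, hx, rfl⟩), card_AA]
      omega
    · intro u hu
      rw [mem_erase]
      constructor
      · rintro rfl
        rw [Sym2.eq_swap] at hu
        exact hu h0
      · obtain ⟨i, y, hy, ⟨h1, -⟩ | ⟨-, h2⟩⟩ := hcase _ _ hu
        · exact absurd h1.symm (va_ne_vb ι y j)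
        · exact (mem_AA ι _).2 ⟨y, hy, h2.symm⟩
  obtain ⟨j1, x1, -, hx1, h1⟩ := hmiss 0
  obtain ⟨j2, x2, hj2, hx2, h2⟩ := hmiss j1
  have hc1 := hcol j1 x1 hx1 h1
  have hc2 := hcol j2 x2 hx2 h2
  have hrow : ∀ x, x ≠ x0 → ∀ u, c s(va ι x, u) = 0 := by
    intro x hx
    apply row_zero hp hc _ (hσa x hx) (((BB ι).erase (vb ι j1)).erase (vb ι j2))
    · rw [card_erase_of_mem, card_erase_of_mem, card_BB]
      · omega
      · exact (mem_BB ι _).2 ⟨j1, rfl⟩
      · exact mem_erase.2 ⟨fun h => hj2 (vb_inj ι h), (mem_BB ι _).2 ⟨j2, rfl⟩⟩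
    · intro u hu
      rw [mem_erase, mem_erase]
      refine ⟨?_, ?_, ?_⟩
      · rintro rfl
        rw [Sym2.eq_swap] at hu
        exact hu (hc2 _)
      · rintro rfl
        rw [Sym2.eq_swap] at hu
        exact hu (hc1 _)
      · obtain ⟨i, y, hy, ⟨-, h2⟩ | ⟨h1, -⟩⟩ := hcase _ _ hu
        · exact (mem_BB ι _).2 ⟨i, h2.symm⟩
        · exact absurd h1 (va_ne_vb ι x i)
  apply hne
  funext e
  induction e using Sym2.ind with
  | _ u v =>
    by_contra h0
    obtain ⟨j, x, hx, ⟨rfl, rfl⟩ | ⟨rfl, rfl⟩⟩ := hcase u v h0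
    · exact h0 (hrow x hx _)
    · rw [Sym2.eq_swap] at h0
      exact h0 (hrow x hx _)

theorem flat_XX (hk : 2 ≤ k) (hp : Generic p) : IsFlat (rigRank p) (XX ι) := by
  intro e he
  by_contra hcon
  rw [not_lt] at hcon
  obtain ⟨c, hc, hsupp, hce⟩ := stress_of_closure p (XX ι) e he hcon
  have hdiag : ∀ v, c s(v, v) = 0 := by
    intro v
    by_contra h0
    obtain ⟨f, -, hf⟩ := hsupp _ h0
    exact f.2 (by rw [hf, Sym2.mk_isDiag_iff])
  have hX : ∀ u v, c s(u, v) ≠ 0 → s(u, v) = e.1 ∨ ∃ j x, s(u, v) = s(hd ι j x, vb ι j) := by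
    intro u v h0
    obtain ⟨f, hf, hfe⟩ := hsupp _ h0
    rcases mem_insert.1 hf with rfl | hf
    · exact Or.inl hfe.symm
    · obtain ⟨j, x, hjx⟩ := (mem_XX ι f).1 hf
      exact Or.inr ⟨j, x, hfe.symm.trans hjx⟩
  -- an end outside the bipartite graph
  have hout : ∀ z v, e.1 = s(z, v) → z ∈ AA ι ∪ BB ι := by
    intro z v hzv
    by_contra hz
    rw [mem_union, not_or] at hz
    have hNz : ∀ u, c s(z, u) ≠ 0 → u = v ∨ ∃ i, z = vw ι i ∧ u = vb ι i := by
      intro u h0
      rcases hX z u h0 with h1 | ⟨i, x, h1⟩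
      · left
        rw [hzv, Sym2.eq_iff] at h1
        rcases h1 with h1 | h1
        · exact h1.2
        · exact h1.2.trans h1.1
      · right
        rw [Sym2.eq_iff] at h1
        rcases h1 with ⟨h1, h2⟩ | ⟨h1, -⟩
        · unfold hd at h1
          split_ifs at h1 with hx
          · exact ⟨i, h1, h2⟩
          · exact absurd ((mem_AA ι _).2 ⟨x, hx, h1.symm⟩) hz.1
        · exact absurd ((mem_BB ι _).2 ⟨i, h1.symm⟩) hz.2
    have hzero : c s(z, v) = 0 := by
      by_cases hzi : ∃ i, z = vw ι i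
      · obtain ⟨i, hi⟩ := hzi
        apply stress_local hp hc hdiag z {v, vb ι i}
        · have := card_le_two (a := v) (b := vb ι i)
          omega
        · intro u h0
          rcases hNz u h0 with h1 | ⟨i', h1, h2⟩
          · rw [h1]
            simp
          · rw [h2, vw_inj ι (h1.symm.trans hi)]
            simp
      · apply stress_local hp hc hdiag z {v}
        · rw [card_singleton]
          omega
        · intro u h0
          rcases hNz u h0 with h1 | ⟨i', h1, -⟩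
          · rw [h1]
            simp
          · exact absurd ⟨i', h1⟩ hzi
    rw [hzv] at hce
    exact hce hzero
  obtain ⟨s, t, hst⟩ : ∃ s t, e.1 = s(s, t) := by
    induction h : e.1 using Sym2.ind with
    | _ u v => exact ⟨u, v, rfl⟩
  have hne : s ≠ t := by
    rintro rfl
    exact e.2 (by rw [hst, Sym2.mk_isDiag_iff])
  have hs := hout s t hst
  have ht := hout t s (hst.trans Sym2.eq_swap)
  have hw : ∀ j u, c s(vw ι j, u) ≠ 0 → u = vb ι j := by
    intro j u h0
    rcases hX _ _ h0 with h1 | ⟨i, x, hix⟩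
    · exfalso
      have h2 := hout (vw ι j) u h1.symm
      rw [mem_union, mem_AA, mem_BB] at h2
      rcases h2 with ⟨x, -, h2⟩ | ⟨i, h2⟩
      · exact va_ne_vw ι x j h2
      · exact vb_ne_vw ι i j h2
    · rw [Sym2.eq_iff] at hix
      rcases hix with ⟨h1, h2⟩ | ⟨h1, -⟩
      · unfold hd at h1
        split_ifs at h1
        · rw [h2, vw_inj ι h1]
        · exact absurd h1.symm (va_ne_vw ι x j)
      · exact absurd h1.symm (vb_ne_vw ι i j)
  have hpend := pend ι hk hp hc hdiag hw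
  have hS : 2 * (AA ι ∪ BB ι).card + 2 ≤ (2 * k + 1 + 2) * (2 * k + 1 + 1) := by
    have := card_AB ι
    nlinarith
  have hbal := (balance hp hc (AA ι ∪ BB ι) hS (by omega) s t hs ht
    hne (sg ι) (fun v hv => sg_zero ι hv) (fun u v h0 => by
      rcases hX u v h0 with h1 | ⟨j, x, hjx⟩
      · right
        rw [h1, hst]
      · left
        by_cases hx : x = x0
        · exfalso
          rw [hjx] at h0
          unfold hd at h0
          rw [if_pos hx] at h0
          exact h0 (hpend j _)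
        · unfold hd at hjx
          rw [if_neg hx, Sym2.eq_iff] at hjx
          rcases hjx with ⟨rfl, rfl⟩ | ⟨rfl, rfl⟩
          · rw [sg_va ι hx, sg_vb]
            ring
          · rw [sg_va ι hx, sg_vb]
            ring)).2
  rw [hst] at hce
  have hsum := (mul_eq_zero.1 hbal).resolve_right hce
  rw [mem_union, mem_AA, mem_BB] at hs ht
  rcases hs with ⟨x, hx, rfl⟩ | ⟨i, rfl⟩ <;> rcases ht with ⟨y, hy, rfl⟩ | ⟨j, rfl⟩
  · rw [sg_va ι hx, sg_va ι hy] at hsum
    norm_num at hsum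
  · apply he
    rw [mem_XX]
    refine ⟨j, x, ?_⟩
    rw [hst]
    unfold hd
    rw [if_neg hx]
  · apply he
    rw [mem_XX]
    refine ⟨i, y, ?_⟩
    rw [hst]
    unfold hd
    rw [if_neg hy, Sym2.eq_swap]
  · rw [sg_vb, sg_vb] at hsum
    norm_num at hsum

theorem rank_DD (j : JJ k) : rigRank p (DD ι j) < (DD ι j).card := by
  obtain ⟨l, hl0, hlA, hl⟩ := exists_dep p (AA ι) (by rw [card_AA]; omega)
  obtain ⟨m, hm0, hmB, hm⟩ := exists_dep p ((BB ι).erase (vb ι j)) (by
    rw [card_erase_of_mem ((mem_BB ι _).2 ⟨j, rfl⟩), card_BB]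
    omega)
  have hcase : ∀ u v, l u * m v ≠ 0 → ∃ f ∈ DD ι j, f.1 = s(u, v) := by
    intro u v h0
    have h1 := (mem_AA ι _).1 (hlA u fun h => h0 (by rw [h, zero_mul]))
    have h2 := mem_erase.1 (hmB v fun h => h0 (by rw [h, mul_zero]))
    obtain ⟨x, hx, rfl⟩ := h1
    obtain ⟨i, rfl⟩ := (mem_BB ι _).1 h2.2
    refine ⟨⟨s(va ι x, vb ι i), ?_⟩, ?_, rfl⟩
    · rw [Sym2.mk_isDiag_iff]
      exact va_ne_vb ι x i
    · rw [mem_DD]
      exact ⟨i, x, fun h => h2.1 (by rw [h]), hx, rfl⟩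
  apply dep_of_stress p _ _ (stress_prod p l m hl hm)
  · intro e
    induction e using Sym2.ind with
    | _ u v =>
      intro h0
      simp only [Sym2.lift_mk] at h0
      by_cases h1 : l u * m v = 0
      · have h2 : l v * m u ≠ 0 := fun h2 => h0 (by rw [h1, h2, add_zero])
        obtain ⟨f, hf, hfe⟩ := hcase v u h2
        exact ⟨f, hf, hfe.trans Sym2.eq_swap⟩
      · exact hcase u v h1
  · intro h0
    obtain ⟨u, hu⟩ := Function.ne_iff.1 hl0
    obtain ⟨v, hv⟩ := Function.ne_iff.1 hm0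
    have h1 := congrFun h0 s(u, v)
    simp only [Sym2.lift_mk] at h1
    have h2 : l v = 0 := by
      by_contra h
      obtain ⟨x, -, hx⟩ := (mem_AA ι _).1 (hlA v h)
      obtain ⟨i, hi⟩ := (mem_BB ι _).1 (mem_erase.1 (hmB v hv)).2
      exact va_ne_vb ι x i (hx.trans hi.symm)
    rw [h2, zero_mul, add_zero] at h1
    exact mul_ne_zero hu hv h1

theorem rank_XX (hk : 2 ≤ k) (hp : Generic p) : (XX ι).card ≤ rigRank p (XX ι) + 2 := by
  set e1 := ed ι ((0 : JJ k), ((0, false) : TT k)) with he1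
  set e2 := ed ι ((1 : JJ k), ((0, false) : TT k)) with he2
  have hx : ((0, false) : TT k) ≠ x0 := by simp [x0]
  have h01 : (0 : JJ k) ≠ 1 := by simp
  have h1 : ¬ rigRank p (((XX ι).erase e1).erase e2) < (((XX ι).erase e1).erase e2).card := by
    intro h
    obtain ⟨j, hj⟩ := dep_DD ι hk hp _ ((erase_subset _ _).trans (erase_subset _ _)) h
    have hm : ∀ i, i ≠ j → ed ι (i, (0, false)) ∈ DD ι j := by
      intro i hi
      unfold DD
      rw [mem_image]
      exact ⟨(i, (0, false)), mem_filter.2 ⟨mem_univ _, hi, hx⟩, rfl⟩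
    by_cases h0 : (0 : JJ k) = j
    · have h3 := hj (hm 1 (fun h => h01 (h0.trans h.symm)))
      exact (mem_erase.1 h3).1 rfl
    · have h3 := hj (hm 0 h0)
      exact (mem_erase.1 (mem_erase.1 h3).2).1 rfl
  have h2 := rank_mono p _ _ (show ((XX ι).erase e1).erase e2 ⊆ XX ι from
    (erase_subset _ _).trans (erase_subset _ _))
  have h3 : (XX ι).card - 1 ≤ ((XX ι).erase e1).card := pred_card_le_card_erase
  have h4 : ((XX ι).erase e1).card - 1 ≤ (((XX ι).erase e1).erase e2).card :=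
    pred_card_le_card_erase
  omega

include ι in
theorem main (hk : 2 ≤ k) (hp : Generic p) : ¬ MatchingProperty (rigRank p) := by
  have hb := biUnion_HH ι
  refine comb (rigRank p) (rank_le_card p) (rank_mono p) (rank_submod p) (HH ι) ?_ ?_ ?_ ?_
    (DD ι) ?_ (rank_DD ι) ?_ ?_ ?_
  · intro P hP
    obtain ⟨jt, -, rfl⟩ := mem_image.1 hP
    exact card_PP ι jt
  · intro P hP Q hQ h
    obtain ⟨jt, -, rfl⟩ := mem_image.1 hP
    obtain ⟨iu, -, rfl⟩ := mem_image.1 hQ
    exact disj_PP ι jt iu h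
  · rw [hb, card_HH]
    exact rank_XX ι hk hp
  · rw [hb]
    exact flat_XX ι hk hp
  · intro j
    rw [hb]
    intro e he
    unfold DD at he
    obtain ⟨ix, -, rfl⟩ := mem_image.1 he
    exact mem_image.2 ⟨ix, mem_univ _, rfl⟩
  · intro Y hY h
    rw [hb] at hY
    exact dep_DD ι hk hp Y hY h
  · intro i j
    obtain ⟨l, hli, hlj⟩ : ∃ l : JJ k, l ≠ i ∧ l ≠ j := by
      by_contra hcon
      push Not at hcon
      have h1 : (univ : Finset (JJ k)) ⊆ {i, j} := by
        intro l _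
        by_cases h : l = i
        · simp [h]
        · simp [hcon l h]
      have h2 := card_le_card h1
      have h3 := card_le_two (a := i) (b := j)
      rw [card_univ, Fintype.card_fin] at h2
      omega
    refine ⟨PP ι (l, 1), mem_image.2 ⟨_, mem_univ _, rfl⟩, ?_⟩
    intro e he
    obtain ⟨b, rfl⟩ := (mem_PP ι _ _).1 he
    have hx : ((1, b) : TT k) ≠ x0 := by simp [x0]
    rw [mem_inter]
    unfold DD
    exact ⟨mem_image.2 ⟨_, mem_filter.2 ⟨mem_univ _, hli, hx⟩, rfl⟩,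
      mem_image.2 ⟨_, mem_filter.2 ⟨mem_univ _, hlj, hx⟩, rfl⟩⟩
  · intro P hP
    obtain ⟨jt, -, rfl⟩ := mem_image.1 hP
    refine ⟨jt.1, ?_⟩
    rw [disjoint_left]
    intro e he he'
    obtain ⟨b, rfl⟩ := (mem_PP ι _ _).1 he
    unfold DD at he'
    obtain ⟨ix, hix, h⟩ := mem_image.1 he'
    have h1 := ed_inj ι h
    have h2 := (mem_filter.1 hix).2.1
    exact h2 (by rw [h1])

end Pool.Agent.R115.Mm
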