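import Pool.Agent.R115.Mm.Gen

/-!
# Stresses
-/

set_option autoImplicit false

namespace Pool.Agent.R115.Mm

open Finset

variable {V : Type} [Fintype V] [DecidableEq V] {d : ℕ}

theorem rank_le_card (p : V → Fin d → ℝ) (X : Finset (Edge V)) : rigRank p X ≤ X.card := by
  classical
  unfold rigRank
  rw [← Finset.coe_image]
  exact (finrank_span_finset_le_card _).trans card_image_le

theorem rank_mono (p : V → Fin d → ℝ) (X Y : Finset (Edge V)) (h : X ⊆ Y) :
    rigRank p X ≤ rigRank p Y :=
  Submodule.finrank_mono (Submodule.span_mono (Set.image_mono (Finset.coe_subset.2 h)))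

theorem rank_submod (p : V → Fin d → ℝ) (X Y : Finset (Edge V)) :
    rigRank p (X ∪ Y) + rigRank p (X ∩ Y) ≤ rigRank p X + rigRank p Y := by
  unfold rigRank
  have h1 := Submodule.finrank_sup_add_finrank_inf_eq
    (Submodule.span ℝ ((fun e : Edge V => rigRow p e.1) '' (X : Set (Edge V))))
    (Submodule.span ℝ ((fun e : Edge V => rigRow p e.1) '' (Y : Set (Edge V))))
  rw [← Submodule.span_union, ← Set.image_union, ← Finset.coe_union] at h1
  rw [← h1]
  apply Nat.add_le_add_left
  apply Submodule.finrank_mono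
  rw [Finset.coe_inter]
  exact le_inf (Submodule.span_mono (Set.image_mono Set.inter_subset_left))
    (Submodule.span_mono (Set.image_mono Set.inter_subset_right))

/-- an equilibrium stress of the complete graph at `p` -/
def Stress (p : V → Fin d → ℝ) (c : Sym2 V → ℝ) : Prop :=
  ∀ v i, ∑ u, c s(v, u) * (p v i - p u i) = 0

/-- extension of a function on the edges in `Y` by zero -/
noncomputable def ext (Y : Finset (Edge V)) (g : Edge V → ℝ) : Sym2 V → ℝ := fun e =>
  open Classical in if h : ¬ e.IsDiag then (if (⟨e, h⟩ : Edge V) ∈ Y then g ⟨e, h⟩ else 0) else 0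

theorem ext_edge (Y : Finset (Edge V)) (g : Edge V → ℝ) (e : Edge V) (he : e ∈ Y) :
    ext Y g e.1 = g e := by
  unfold ext
  rw [dif_pos e.2, if_pos he]

theorem ext_supp (Y : Finset (Edge V)) (g : Edge V → ℝ) (e : Sym2 V) (he : ext Y g e ≠ 0) :
    ∃ f ∈ Y, f.1 = e := by
  unfold ext at he
  by_cases h1 : ¬ e.IsDiag
  · rw [dif_pos h1] at he
    by_cases h2 : (⟨e, h1⟩ : Edge V) ∈ Y
    · exact ⟨_, h2, rfl⟩
    · rw [if_neg h2] at he
      exact absurd rfl he
  · rw [dif_neg h1] at he
    exact absurd rfl he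

theorem sum_row (p : V → Fin d → ℝ) (Y : Finset (Edge V)) (g : Edge V → ℝ) (v : V) (i : Fin d) :
    (∑ e ∈ Y, g e • rigRow p e.1) v i = ∑ u, ext Y g s(v, u) * (p v i - p u i) := by
  rw [Finset.sum_apply, Finset.sum_apply]
  simp only [Pi.smul_apply, smul_eq_mul, rigRow, Finset.mul_sum]
  rw [Finset.sum_comm]
  apply Finset.sum_congr rfl
  intro u _
  by_cases huv : (s(v, u) : Sym2 V).IsDiag
  · rw [Finset.sum_eq_zero]
    · unfold ext
      rw [dif_neg (not_not.2 huv), zero_mul]
    · intro e _
      rw [if_neg, mul_zero]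
      intro h
      exact e.2 (h ▸ huv)
  · by_cases hY : (⟨s(v, u), huv⟩ : Edge V) ∈ Y
    · rw [Finset.sum_eq_single ⟨s(v, u), huv⟩]
      · rw [if_pos rfl]
        unfold ext
        rw [dif_pos huv, if_pos hY]
      · intro e _ he
        rw [if_neg, mul_zero]
        intro h
        exact he (Subtype.ext h.symm)
      · intro h
        exact absurd hY h
    · rw [Finset.sum_eq_zero]
      · unfold ext
        rw [dif_pos huv, if_neg hY, zero_mul]
      · intro e he
        rw [if_neg, mul_zero]
        intro h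
        have h1 : e = ⟨s(v, u), huv⟩ := Subtype.ext h.symm
        exact hY (h1 ▸ he)

/-- a dependent set of edges carries a stress -/
theorem stress_of_dep (p : V → Fin d → ℝ) (Y : Finset (Edge V)) (h : rigRank p Y < Y.card) :
    ∃ c, Stress p c ∧ (∀ e, c e ≠ 0 → ∃ f ∈ Y, f.1 = e) ∧ c ≠ 0 := by
  classical
  have h1 : ¬ LinearIndependent ℝ (fun e : Y => rigRow p e.1.1) := by
    intro hli
    have h2 := finrank_span_eq_card hli
    have h3 : Set.range (fun e : Y => rigRow p e.1.1) =
        (fun e : Edge V => rigRow p e.1) '' (Y : Set (Edge V)) := by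
      ext x
      simp
    rw [h3, Fintype.card_coe] at h2
    unfold rigRank at h
    omega
  rw [Fintype.not_linearIndependent_iff] at h1
  obtain ⟨g, hg, e, he⟩ := h1
  let g' : Edge V → ℝ := fun e => if h : e ∈ Y then g ⟨e, h⟩ else 0
  have hg' : ∀ e : Y, g' e = g e := fun e => dif_pos e.2
  have hsum : ∑ e ∈ Y, g' e • rigRow p e.1 = 0 := by
    rw [← Finset.sum_coe_sort Y (fun e => g' e • rigRow p e.1), ← hg]
    exact Finset.sum_congr rfl fun e _ => by rw [hg']
  refine ⟨ext Y g', fun v i => ?_, ext_supp Y g', fun h0 => he ?_⟩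
  · rw [← sum_row, hsum]
    rfl
  · rw [← hg', ← ext_edge Y g' e e.2, h0]
    rfl

/-- a set of edges carrying a stress is dependent -/
theorem dep_of_stress (p : V → Fin d → ℝ) (Y : Finset (Edge V)) (c : Sym2 V → ℝ)
    (hc : Stress p c) (hY : ∀ e, c e ≠ 0 → ∃ f ∈ Y, f.1 = e) (hne : c ≠ 0) :
    rigRank p Y < Y.card := by
  classical
  by_contra hcon
  have hle := rank_le_card p Y
  have h3 : Set.range (fun e : Y => rigRow p e.1.1) =
      (fun e : Edge V => rigRow p e.1) '' (Y : Set (Edge V)) := by
    ext x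
    simp
  have h1 : LinearIndependent ℝ (fun e : Y => rigRow p e.1.1) := by
    rw [linearIndependent_iff_card_eq_finrank_span, Set.finrank, h3, Fintype.card_coe]
    unfold rigRank at hcon hle
    omega
  rw [Fintype.linearIndependent_iff] at h1
  have hext : ∀ e, ext Y (fun e => c e.1) e = c e := by
    intro e
    by_cases he : c e = 0
    · unfold ext
      split_ifs
      · exact he.symm
      · rfl
      · exact he.symm
    · obtain ⟨f, hf, rfl⟩ := hY e he
      exact ext_edge Y _ f hf
  have h4 := h1 (fun e => c e.1.1) (by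
    rw [Finset.sum_coe_sort Y (fun e => c e.1 • rigRow p e.1)]
    funext v i
    rw [sum_row p Y (fun e => c e.1)]
    simp only [hext]
    exact hc v i)
  apply hne
  funext e
  by_contra he
  obtain ⟨f, hf, rfl⟩ := hY e he
  exact he (h4 ⟨f, hf⟩)

/-- an edge in the closure is in a stress -/
theorem stress_of_closure (p : V → Fin d → ℝ) (Y : Finset (Edge V)) (e : Edge V) (he : e ∉ Y)
    (h : rigRank p (insert e Y) ≤ rigRank p Y) :
    ∃ c, Stress p c ∧ (∀ f, c f ≠ 0 → ∃ g ∈ insert e Y, g.1 = f) ∧ c e.1 ≠ 0 := by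
  classical
  have h1 : rigRow p e.1 ∈ Submodule.span ℝ ((fun e : Edge V => rigRow p e.1) '' (Y : Set (Edge V))) := by
    have h2 : Submodule.span ℝ ((fun e : Edge V => rigRow p e.1) '' (Y : Set (Edge V))) =
        Submodule.span ℝ ((fun e : Edge V => rigRow p e.1) '' ((insert e Y : Finset (Edge V)) :
          Set (Edge V))) :=
      Submodule.eq_of_le_of_finrank_le (Submodule.span_mono (Set.image_mono
        (Finset.coe_subset.2 (Finset.subset_insert e Y)))) h
    rw [h2]
    exact Submodule.subset_span ⟨e, by simp, rfl⟩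
  rw [Submodule.mem_span_image_finset_iff_exists_fun] at h1
  obtain ⟨g0, hg⟩ := h1
  let g : Edge V → ℝ := fun f => if h : f ∈ Y then g0 ⟨f, h⟩ else 0
  have hg0 : ∀ f : Y, g f = g0 f := fun f => dif_pos f.2
  let g' : Edge V → ℝ := fun f => if f = e then -1 else g f
  have hsum : ∑ f ∈ insert e Y, g' f • rigRow p f.1 = 0 := by
    rw [Finset.sum_insert he]
    have h2 : ∑ f ∈ Y, g' f • rigRow p f.1 = rigRow p e.1 := by
      rw [← hg, ← Finset.sum_coe_sort Y (fun f => g' f • rigRow p f.1)]
      apply Finset.sum_congr rfl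
      intro f _
      have : (f : Edge V) ≠ e := fun h => he (h ▸ f.2)
      simp only [g', if_neg this, hg0]
    rw [h2]
    simp [g']
  refine ⟨ext (insert e Y) g', fun v i => ?_, ext_supp _ g', ?_⟩
  · rw [← sum_row, hsum]
    rfl
  · rw [ext_edge _ g' e (Finset.mem_insert_self _ _)]
    simp [g']

end Pool.Agent.R115.Mm
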